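import Mathlib

/-!
Definitions for the statement: hyperbolic space in the hyperboloid model, its isometry group,
its Laplace-Beltrami operator, eigenspaces on quotients, and arithmetic groups coming from
skew-hermitian forms over quaternion algebras over the rationals.
-/

namespace Pool.Agent.P.MP_3c2f8c_gt

open Matrix
open scoped Quaternion

section Hyperbolic

variable {n : ℕ}

/-- The Lorentz form `x₁y₁ + ⋯ + xₙyₙ - x₀y₀` on `ℝ^(n+1)`. -/
def lor (x y : Fin (n + 1) → ℝ) : ℝ := ∑ i : Fin n, x i.succ * y i.succ - x 0 * y 0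

/-- Hyperbolic `n`-space: the upper sheet of the hyperboloid `lor x x = -1`. -/
abbrev Hyp (n : ℕ) : Type := {x : Fin (n + 1) → ℝ // lor x x = -1 ∧ 0 < x 0}

/-- The open cone over hyperbolic space. -/
def cone (n : ℕ) : Set (Fin (n + 1) → ℝ) := {x | lor x x < 0 ∧ 0 < x 0}

theorem lor_smul_smul (c : ℝ) (x y : Fin (n + 1) → ℝ) :
    lor (c • x) (c • y) = c ^ 2 * lor x y := by
  simp only [lor, Pi.smul_apply, smul_eq_mul, mul_sub, Finset.mul_sum]
  congr 1
  · exact Finset.sum_congr rfl fun i _ => by ring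
  · ring

theorem lor_neg_neg (x y : Fin (n + 1) → ℝ) : lor (-x) (-y) = lor x y := by
  simp [lor]

/-- The radial projection of the cone onto hyperbolic space. -/
noncomputable def proj (x : Fin (n + 1) → ℝ) (hx : x ∈ cone n) : Hyp n :=
  ⟨(√(-lor x x))⁻¹ • x, by
    have h : 0 < -lor x x := neg_pos.2 hx.1
    refine ⟨?_, ?_⟩
    · rw [lor_smul_smul, inv_pow, Real.sq_sqrt h.le]
      field_simp [hx.1.ne]
    · exact mul_pos (inv_pos.2 (Real.sqrt_pos.2 h)) hx.2⟩

open Classical in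
/-- The extension of a function on hyperbolic space to the cone, homogeneous of degree `0`. -/
noncomputable def ext (f : Hyp n → ℝ) (x : Fin (n + 1) → ℝ) : ℝ :=
  if hx : x ∈ cone n then f (proj x hx) else 0

/-- The derivative in the `i`-th coordinate direction. -/
noncomputable def pd (i : Fin (n + 1)) (F : (Fin (n + 1) → ℝ) → ℝ) (x : Fin (n + 1) → ℝ) : ℝ :=
  fderiv ℝ F x (Pi.single i 1)

/-- The wave operator `∂₁² + ⋯ + ∂ₙ² - ∂₀²`. -/
noncomputable def box (F : (Fin (n + 1) → ℝ) → ℝ) (x : Fin (n + 1) → ℝ) : ℝ :=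
  ∑ i : Fin n, pd i.succ (pd i.succ F) x - pd 0 (pd 0 F) x

/-- The Laplace-Beltrami operator of hyperbolic space: the wave operator applied to the
extension of degree `0`, restricted to the hyperboloid. -/
noncomputable def lap (f : Hyp n → ℝ) (x : Hyp n) : ℝ := box (ext f) x.1

/-- Smooth functions on hyperbolic space. -/
def Smooth (f : Hyp n → ℝ) : Prop := ContDiffOn ℝ (⊤ : ℕ∞) (ext f) (cone n)

/-- The isometry group `O⁺(n,1)` of hyperbolic space: the matrices that preserve the Lorentz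
form and the upper sheet. -/
def Oplus (n : ℕ) : Subgroup (GL (Fin (n + 1)) ℝ) where
  carrier := {g | (∀ x y, lor (g.1 *ᵥ x) (g.1 *ᵥ y) = lor x y) ∧
    ∀ x : Hyp n, 0 < (g.1 *ᵥ x.1) 0}
  one_mem' := ⟨fun x y => by simp, fun x => by simpa using x.2.2⟩
  mul_mem' := by
    rintro g h ⟨hg, hg'⟩ ⟨hh, hh'⟩
    refine ⟨fun x y => ?_, fun x => ?_⟩
    · rw [Units.val_mul, ← mulVec_mulVec, ← mulVec_mulVec, hg, hh]
    · rw [Units.val_mul, ← mulVec_mulVec]
      exact hg' ⟨h.1 *ᵥ x.1, by rw [hh, x.2.1], hh' x⟩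
  inv_mem' := by
    rintro g ⟨hg, hg'⟩
    have e : ∀ x, g.1 *ᵥ ((g⁻¹).1 *ᵥ x) = x := fun x => by
      rw [mulVec_mulVec, ← Units.val_mul, mul_inv_cancel, Units.val_one, one_mulVec]
    refine ⟨fun x y => by rw [← hg, e, e], fun x => ?_⟩
    set y := (g⁻¹).1 *ᵥ x.1 with hy
    have h1 : lor y y = -1 := by rw [← hg, e, x.2.1]
    rcases lt_trichotomy 0 (y 0) with h | h | h
    · exact h
    · exfalso
      have : 0 ≤ ∑ i : Fin n, y i.succ * y i.succ :=
        Finset.sum_nonneg fun i _ => mul_self_nonneg _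
      rw [lor, ← h] at h1
      linarith
    · exfalso
      have h2 := hg' ⟨-y, by rw [lor_neg_neg, h1], by simpa using h⟩
      simp only [mulVec_neg, Pi.neg_apply] at h2
      rw [hy, e] at h2
      linarith [x.2.2]

/-- The action of the isometry group on hyperbolic space. -/
instance : MulAction (Oplus n) (Hyp n) where
  smul g x := ⟨g.1.1 *ᵥ x.1, by rw [g.2.1, x.2.1], g.2.2 x⟩
  one_smul x := Subtype.ext (one_mulVec x.1)
  mul_smul g h x := Subtype.ext (mulVec_mulVec x.1 g.1.1 h.1.1).symm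

theorem isOpen_cone : IsOpen (cone n) := by
  have h : Continuous fun x : Fin (n + 1) → ℝ => lor x x := by unfold lor; fun_prop
  exact (isOpen_lt h continuous_const).inter (isOpen_lt continuous_const (continuous_apply 0))

theorem mem_cone (x : Hyp n) : x.1 ∈ cone n := ⟨by rw [x.2.1]; norm_num, x.2.2⟩

theorem ext_add (f g : Hyp n → ℝ) : ext (f + g) = ext f + ext g := by
  funext x
  by_cases h : x ∈ cone n <;> simp [ext, h]

theorem ext_smul (c : ℝ) (f : Hyp n → ℝ) : ext (c • f) = c • ext f := by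
  funext x
  by_cases h : x ∈ cone n <;> simp [ext, h]

theorem pd_smul (i : Fin (n + 1)) (c : ℝ) (F : (Fin (n + 1) → ℝ) → ℝ) :
    pd i (c • F) = c • pd i F := by
  funext x
  simp [pd, fderiv_const_smul_field]

theorem pd_pd_add (i : Fin (n + 1)) {F G : (Fin (n + 1) → ℝ) → ℝ}
    (hF : ContDiffOn ℝ (⊤ : ℕ∞) F (cone n)) (hG : ContDiffOn ℝ (⊤ : ℕ∞) G (cone n))
    {x : Fin (n + 1) → ℝ} (hx : x ∈ cone n) :
    pd i (pd i (F + G)) x = pd i (pd i F) x + pd i (pd i G) x := by
  have hne : ((⊤ : ℕ∞) : WithTop ℕ∞) ≠ 0 := by simp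
  have key : ∀ H : (Fin (n + 1) → ℝ) → ℝ, ContDiffOn ℝ (⊤ : ℕ∞) H (cone n) →
      DifferentiableAt ℝ (pd i H) x := fun H hH => by
    have h1 := (contDiffOn_infty_iff_fderiv_of_isOpen isOpen_cone).1 hH
    have h2 := (h1.2.contDiffAt (isOpen_cone.mem_nhds hx)).differentiableAt hne
    exact h2.clm_apply (differentiableAt_const _)
  have h : pd i (F + G) =ᶠ[nhds x] pd i F + pd i G := by
    filter_upwards [isOpen_cone.mem_nhds hx] with y hy
    have hF' := (hF.contDiffAt (isOpen_cone.mem_nhds hy)).differentiableAt hne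
    have hG' := (hG.contDiffAt (isOpen_cone.mem_nhds hy)).differentiableAt hne
    simp [pd, fderiv_add hF' hG']
  rw [pd, h.fderiv_eq, fderiv_add (key F hF) (key G hG)]
  rfl

theorem lap_add {f g : Hyp n → ℝ} (hf : Smooth f) (hg : Smooth g) (x : Hyp n) :
    lap (f + g) x = lap f x + lap g x := by
  simp only [lap, box, ext_add, pd_pd_add _ hf hg (mem_cone x), Finset.sum_add_distrib]
  ring

theorem lap_smul (c : ℝ) (f : Hyp n → ℝ) (x : Hyp n) : lap (c • f) x = c * lap f x := by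
  simp only [lap, box, ext_smul, pd_smul, Pi.smul_apply, smul_eq_mul, mul_sub, Finset.mul_sum]

/-- The eigenspace of the Laplacian on the quotient of hyperbolic space by `Γ`: the smooth
`Γ`-invariant functions `f` with `lap f = -ev * f`. -/
def Eig (Γ : Subgroup (Oplus n)) (ev : ℝ) : Submodule ℝ (Hyp n → ℝ) where
  carrier := {f | Smooth f ∧ (∀ g ∈ Γ, ∀ x, f (g • x) = f x) ∧ ∀ x, lap f x = -ev * f x}
  zero_mem' := by
    have h0 : (0 : Hyp n → ℝ) = (0 : ℝ) • (0 : Hyp n → ℝ) := by simp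
    refine ⟨?_, fun _ _ _ => rfl, fun x => ?_⟩
    · rw [Smooth, h0, ext_smul, zero_smul]
      exact contDiffOn_const
    · rw [h0, lap_smul]
      simp
  add_mem' := by
    rintro f g ⟨hf, hf', hf''⟩ ⟨hg, hg', hg''⟩
    refine ⟨?_, fun γ hγ x => by simp [hf' γ hγ, hg' γ hγ], fun x => ?_⟩
    · rw [Smooth, ext_add]
      exact ContDiffOn.add hf hg
    · rw [lap_add hf hg, hf'', hg'', Pi.add_apply]
      ring
  smul_mem' := by
    rintro c f ⟨hf, hf', hf''⟩
    refine ⟨?_, fun γ hγ x => by simp [hf' γ hγ], fun x => ?_⟩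
    · rw [Smooth, ext_smul]
      exact ContDiffOn.const_smul c hf
    · rw [lap_smul, hf'', Pi.smul_apply, smul_eq_mul]
      ring

/-- The quotient of hyperbolic space by `Γ` is a closed orientable hyperbolic manifold: `Γ` is
discrete, torsion-free, cocompact and consists of matrices of determinant `1`. -/
def IsClosedMfd (Γ : Subgroup (Oplus n)) : Prop :=
  (∀ R : ℝ, {g : Oplus n | g ∈ Γ ∧ ∀ i j, |g.1.1 i j| ≤ R}.Finite) ∧
  (∀ g ∈ Γ, IsOfFinOrder g → g = 1) ∧
  (∃ C : Set (Hyp n), IsCompact C ∧ ∀ x : Hyp n, ∃ g ∈ Γ, g • x ∈ C) ∧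
  ∀ g ∈ Γ, g.1.1.det = 1

/-- The two quotients have the same Laplace eigenvalues with the same finite multiplicities. -/
def Isospectral (Γ₁ Γ₂ : Subgroup (Oplus n)) : Prop :=
  ∀ ev : ℝ, Module.Finite ℝ (Eig Γ₁ ev) ∧ Module.Finite ℝ (Eig Γ₂ ev) ∧
    Module.finrank ℝ (Eig Γ₁ ev) = Module.finrank ℝ (Eig Γ₂ ev)

/-- The two quotients have a common finite isometric cover: a conjugate of `Γ₁` by an isometry
meets `Γ₂` in a subgroup of finite index in both. -/
def WideComm (Γ₁ Γ₂ : Subgroup (Oplus n)) : Prop :=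
  ∃ g : Oplus n, Subgroup.Commensurable (Γ₁.map (MulAut.conj g).toMonoidHom) Γ₂

end Hyperbolic

section Arithmetic

/-- The quaternion algebra with `i² = a`, `j² = b`, `ij = -ji` over the ring `R`. -/
abbrev Q (a b : ℤ) (R : Type) [CommRing R] : Type := ℍ[R, (a : R), 0, (b : R)]

variable {a b : ℤ} {R S : Type} [CommRing R] [CommRing S]

/-- Change of the base ring for quaternions, coordinate by coordinate. -/
def qmap (a b : ℤ) (φ : R →+* S) : Q a b R →+* Q a b S where
  toFun z := ⟨φ z.re, φ z.imI, φ z.imJ, φ z.imK⟩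
  map_one' := by ext <;> simp
  map_mul' x y := by ext <;> simp
  map_zero' := by ext <;> simp
  map_add' x y := by ext <;> simp

/-- The unitary group of the form with Gram matrix `H`: the invertible `g` with `g* H g = H`. -/
def Un {ι A : Type} [Fintype ι] [DecidableEq ι] [Ring A] [StarRing A] (H : Matrix ι ι A) :
    Subgroup (Matrix ι ι A)ˣ where
  carrier := {g | g.1ᴴ * H * g.1 = H}
  one_mem' := by simp
  mul_mem' := by
    intro g h hg hh
    simp only [Set.mem_ofPred_eq] at hg hh ⊢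
    calc (g * h).1ᴴ * H * (g * h).1 = h.1ᴴ * (g.1ᴴ * H * g.1) * h.1 := by
          simp only [Units.val_mul, conjTranspose_mul, Matrix.mul_assoc]
      _ = H := by rw [hg, hh]
  inv_mem' := by
    intro g hg
    simp only [Set.mem_ofPred_eq] at hg ⊢
    calc (g⁻¹).1ᴴ * H * (g⁻¹).1 = (g⁻¹).1ᴴ * (g.1ᴴ * H * g.1) * (g⁻¹).1 := by rw [hg]
      _ = (g.1 * (g⁻¹).1)ᴴ * H * (g.1 * (g⁻¹).1) := by
          simp only [conjTranspose_mul, Matrix.mul_assoc]
      _ = H := by rw [← Units.val_mul, mul_inv_cancel]; simp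

/-- `Γ` is an arithmetic group of isometries of hyperbolic `(4m+1)`-space defined by an outer
`ℚ`-form of type `D_(2m+1)`. There are a quaternion algebra `(a, b)` over `ℚ`, a non-degenerate
skew-hermitian form `diag(x₁, …, x_(2m+1))` over it with integral entries and with discriminant
`x₁² ⋯ x_(2m+1)²` not a square in `ℚ`, and an isomorphism `ψ` of real algebras that carries the real
unitary group of the form onto `O(4m+1, 1)`, such that `Γ` is commensurable with the image of the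
integral unitary group. -/
def IsArithOuter (m : ℕ) (Γ : Subgroup (Oplus (4 * m + 1))) : Prop :=
  ∃ (a b : ℤ) (x : Fin (2 * m + 1) → Q a b ℤ)
    (ψ : Matrix (Fin (2 * m + 1)) (Fin (2 * m + 1)) (Q a b ℝ) ≃ₐ[ℝ]
      Matrix (Fin (4 * m + 1 + 1)) (Fin (4 * m + 1 + 1)) ℝ),
    a ≠ 0 ∧ b ≠ 0 ∧ (∀ j, (x j).re = 0 ∧ (x j * x j).re ≠ 0) ∧
    ¬ IsSquare ((∏ j, (x j * x j).re : ℤ) : ℚ) ∧
    (∀ g, gᴴ * (diagonal x).map (qmap a b (Int.castRingHom ℝ)) * g =
        (diagonal x).map (qmap a b (Int.castRingHom ℝ)) ↔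
      ∀ u v, lor (ψ g *ᵥ u) (ψ g *ᵥ v) = lor u v) ∧
    Subgroup.Commensurable Γ (((Un (diagonal x)).map (Units.map
      ((ψ : _ →+* _).comp (qmap a b (Int.castRingHom ℝ)).mapMatrix).toMonoidHom)).subgroupOf
      (Oplus (4 * m + 1)))

end Arithmetic

end Pool.Agent.P.MP_3c2f8c_gt
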